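import Pool.Agent.N869.GK.L.Stm

/-!
# GK-PAIR: the sets that are not stable contribute little
-/

set_option autoImplicit false
set_option linter.unusedVariables false
set_option linter.unusedSectionVars false

open scoped Classical

namespace Pool.Agent.N314.GK

open Finset
open Pool.Agent.N869.GK

theorem two_eq : (2 : ZMod 2) = 0 := by decide

theorem z2 (a : ZMod 2) : a = 0 ∨ a = 1 := by revert a; decide

theorem om_add_right (w u v : V) : om w (u + v) = om w u + om w v := by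
  unfold om
  simp only [Pi.add_apply]
  ring

theorem om_add_left (w w' v : V) : om (w + w') v = om w v + om w' v := by
  unfold om
  simp only [Pi.add_apply]
  ring

section forms

variable {ι : Type} [Fintype ι]

/-- the quadratic form on decorations -/
def qf (θ : Dc ι) : ZMod 2 := ∑ x, om (θ x).2 (θ x).1

/-- its bilinear form -/
def bf (θ η : Dc ι) : ZMod 2 := ∑ x, (om (θ x).2 (η x).1 + om (η x).2 (θ x).1)

theorem bf_add_right (θ η η' : Dc ι) : bf θ (η + η') = bf θ η + bf θ η' := by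
  unfold bf
  rw [← sum_add_distrib]
  refine sum_congr rfl fun x _ => ?_
  simp only [Pi.add_apply, Prod.fst_add, Prod.snd_add, om_add_left, om_add_right]
  ring

theorem bf_comm (θ η : Dc ι) : bf θ η = bf η θ := by
  unfold bf
  exact sum_congr rfl fun x _ => add_comm _ _

theorem bf_add_left (θ θ' η : Dc ι) : bf (θ + θ') η = bf θ η + bf θ' η := by
  rw [bf_comm, bf_add_right, bf_comm η θ, bf_comm η θ']

theorem bf_zero_right (θ : Dc ι) : bf θ 0 = 0 := by
  have h := bf_add_right θ 0 0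
  rw [add_zero] at h
  simpa using h

theorem qf_add (θ η : Dc ι) : qf (θ + η) = qf θ + qf η + bf θ η := by
  unfold qf bf
  rw [← sum_add_distrib, ← sum_add_distrib]
  refine sum_congr rfl fun x _ => ?_
  simp only [Pi.add_apply, Prod.fst_add, Prod.snd_add, om_add_left, om_add_right]
  ring

theorem dc_add_self (θ : Dc ι) : θ + θ = 0 := by
  funext x
  refine Prod.ext ?_ ?_ <;> funext c <;> exact CharTwo.add_self_eq_zero _

theorem dc_neg (θ : Dc ι) : -θ = θ := neg_eq_of_add_eq_zero_left (dc_add_self θ)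

theorem dc_cancel (ζ θ : Dc ι) : ζ + (ζ + θ) = θ := by
  rw [← add_assoc, dc_add_self, zero_add]

theorem dc_cancel' (ζ θ : Dc ι) : ζ + θ + θ = ζ := by
  rw [add_assoc, dc_add_self, add_zero]

/-- the group of the differences -/
def Lam (Z : Finset (Dc ι)) : AddSubgroup (Dc ι) where
  carrier := {θ | ∀ ζ ∈ Z, ζ + θ ∈ Z}
  zero_mem' := fun ζ h => by simpa using h
  add_mem' := fun {a b} ha hb ζ h => by
    rw [← add_assoc]
    exact hb _ (ha _ h)
  neg_mem' := fun {a} ha ζ h => by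
    rw [dc_neg]
    exact ha ζ h

/-- unlinked sets that are cosets of groups which are their own duals -/
structure Lag (Z : Finset (Dc ι)) : Prop where
  ne : Z.Nonempty
  iso : ∀ ζ ∈ Z, ∀ ζ' ∈ Z, qf (ζ + ζ') = 0
  tri : ∀ ζ₁ ∈ Z, ∀ ζ₂ ∈ Z, ∀ ζ₃ ∈ Z, ζ₁ + ζ₂ + ζ₃ ∈ Z
  dual : ∀ η, (∀ ζ₁ ∈ Z, ∀ ζ₂ ∈ Z, bf (ζ₁ + ζ₂) η = 0) → ∀ ζ ∈ Z, ζ + η ∈ Z

variable {Z : Finset (Dc ι)}

theorem lag_of_MS (hU : S_UNL) (hZ : MS univ Z) : Lag Z := by
  obtain ⟨h1, h2, h3⟩ := (hU ι univ).2 Z hZ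
  have hcard := hZ.2.1
  refine ⟨?_, ?_, h1, ?_⟩
  · rw [← card_pos, hcard]
    positivity
  · intro ζ hζ ζ' hζ'
    exact hZ.2.2 ζ hζ ζ' hζ'
  · intro η hη
    refine h3 η ?_ hη
    unfold Sp
    rw [mem_filter]
    exact ⟨mem_univ _, fun x hx => absurd (mem_univ x) hx⟩

theorem Lag.add_mem (hZ : Lag Z) {ζ₁ ζ₂ : Dc ι} (h1 : ζ₁ ∈ Z) (h2 : ζ₂ ∈ Z) :
    ζ₁ + ζ₂ ∈ Lam Z := by
  intro ζ hζ
  rw [← add_assoc]
  exact hZ.tri _ hζ _ h1 _ h2

theorem Lag.qf_eq (hZ : Lag Z) {θ : Dc ι} (h : θ ∈ Lam Z) : qf θ = 0 := by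
  obtain ⟨ζ, hζ⟩ := hZ.ne
  have h1 := hZ.iso ζ hζ (ζ + θ) (h ζ hζ)
  rwa [dc_cancel] at h1

theorem Lag.bf_eq (hZ : Lag Z) {θ η : Dc ι} (h : θ ∈ Lam Z) (h' : η ∈ Lam Z) : bf θ η = 0 := by
  have h1 := hZ.qf_eq ((Lam Z).add_mem h h')
  rw [qf_add, hZ.qf_eq h, hZ.qf_eq h'] at h1
  simpa using h1

theorem Lag.mem_of (hZ : Lag Z) {η : Dc ι} (h : ∀ θ ∈ Lam Z, bf θ η = 0) : η ∈ Lam Z :=
  hZ.dual η fun _ h1 _ h2 => h _ (hZ.add_mem h1 h2)

theorem act_add (M : Matrix (Fin 2) (Fin 2) (ZMod 2)) (θ θ' : Dc ι) :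
    act M (θ + θ') = act M θ + act M θ' := by
  funext x
  simp only [act, Pi.add_apply, Prod.fst_add, Prod.snd_add, Matrix.mulVec_add, Prod.mk_add_mk]

theorem add_act (M M' : Matrix (Fin 2) (Fin 2) (ZMod 2)) (θ : Dc ι) :
    act (M + M') θ = act M θ + act M' θ := by
  funext x
  simp only [act, Pi.add_apply, Matrix.add_mulVec, Prod.mk_add_mk]

theorem mul_act (M M' : Matrix (Fin 2) (Fin 2) (ZMod 2)) (θ : Dc ι) :
    act (M * M') θ = act M (act M' θ) := by
  funext x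
  simp only [act, Matrix.mulVec_mulVec]

theorem one_act (θ : Dc ι) : act 1 θ = θ := by
  funext x
  simp only [act, Matrix.one_mulVec]

end forms

section algebra

variable {r : ℕ}

/-- the adjoint of the local matrix -/
def Mst (D : Par r) (π : Gr r) : Matrix (Fin 2) (Fin 2) (ZMod 2) :=
  !![dot D.ll π, dot D.aa π; dot D.bb π, dot D.ll π + dot D.em π]

/-- matrices with first entry zero -/
def E3 (t a b : ZMod 2) : Matrix (Fin 2) (Fin 2) (ZMod 2) := !![0, a; b, t]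

theorem E3_add (t a b t' a' b' : ZMod 2) :
    E3 t a b + E3 t' a' b' = E3 (t + t') (a + a') (b + b') := by
  unfold E3
  ext i j
  fin_cases i <;> fin_cases j <;> simp

theorem Mst_eq (D : Par r) (π : Gr r) : E3 (dot D.em π) (dot D.aa π) (dot D.bb π) =
    Mst D π + dot D.ll π • (1 : Matrix (Fin 2) (Fin 2) (ZMod 2)) := by
  unfold E3 Mst
  ext i j
  fin_cases i <;> fin_cases j <;> simp
  · exact (CharTwo.add_self_eq_zero _).symm
  · linear_combination (-dot D.ll π) * two_eq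

theorem exists_dot {x : Gr r} (hx : x ≠ 0) : ∃ π, dot x π = 1 := by
  have : ∃ i, x i ≠ 0 := by
    by_contra h
    push Not at h
    exact hx (funext h)
  obtain ⟨i, hi⟩ := this
  refine ⟨Pi.single i 1, ?_⟩
  unfold dot
  rw [sum_eq_single i]
  · rw [Pi.single_eq_same, mul_one]
    exact (z2 (x i)).resolve_left hi
  · intro j _ hj
    rw [Pi.single_eq_of_ne hj, mul_zero]
  · intro h
    exact absurd (mem_univ i) h

theorem dot_add (x y π : Gr r) : dot (x + y) π = dot x π + dot y π := by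
  unfold dot
  rw [← sum_add_distrib]
  exact sum_congr rfl fun i _ => by rw [Pi.add_apply, add_mul]

/-- the subsets of `𝔽₂³` closed under addition that are not contained in some subspaces -/
theorem comb8 (q1 q2 q3 q4 q5 q6 q7 : Prop)
    (l1 : (q1 → q2 → q3) ∧ (q1 → q3 → q2) ∧ (q2 → q3 → q1))
    (l2 : (q1 → q4 → q5) ∧ (q1 → q5 → q4) ∧ (q4 → q5 → q1))
    (l3 : (q1 → q6 → q7) ∧ (q1 → q7 → q6) ∧ (q6 → q7 → q1))
    (l4 : (q2 → q4 → q6) ∧ (q2 → q6 → q4) ∧ (q4 → q6 → q2))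
    (l5 : (q2 → q5 → q7) ∧ (q2 → q7 → q5) ∧ (q5 → q7 → q2))
    (l6 : (q3 → q4 → q7) ∧ (q3 → q7 → q4) ∧ (q4 → q7 → q3))
    (l7 : (q3 → q5 → q6) ∧ (q3 → q6 → q5) ∧ (q5 → q6 → q3))
    (h1 : q2 ∨ q3 ∨ q6 ∨ q7) (h2 : q1 ∨ q3 ∨ q5 ∨ q7) (h3 : q1 ∨ q2 ∨ q4 ∨ q7)
    (h4 : q1 ∨ q2 ∨ q3 ∨ q4 ∨ q5 ∨ q6) :
    (q2 ∧ q1) ∨ (q1 ∧ q6) ∨ (q2 ∧ q5) ∨ (q4 ∧ q3) := by
  by_cases g1 : q1 <;> by_cases g2 : q2 <;> by_cases g3 : q3 <;> by_cases g4 : q4 <;>
    by_cases g5 : q5 <;> by_cases g6 : q6 <;> by_cases g7 : q7 <;> simp_all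

/-- the matrices of the labels generate the algebra of all matrices -/
theorem gen (D : Par r) (ok : Ok D) (S : Set (Matrix (Fin 2) (Fin 2) (ZMod 2)))
    (h1 : 1 ∈ S) (hadd : ∀ x ∈ S, ∀ y ∈ S, x + y ∈ S) (hmul : ∀ x ∈ S, ∀ y ∈ S, x * y ∈ S)
    (hM : ∀ π, Mst D π ∈ S) : ∀ M, M ∈ S := by
  have h0 : (0 : Matrix (Fin 2) (Fin 2) (ZMod 2)) ∈ S := by
    have h := hadd 1 h1 1 h1
    have e : (1 : Matrix (Fin 2) (Fin 2) (ZMod 2)) + 1 = 0 := CharTwo.add_self_eq_zero _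
    rwa [e] at h
  have hsm : ∀ (c : ZMod 2), ∀ X ∈ S, c • X ∈ S := by
    intro c X hX
    rcases z2 c with h | h
    · rw [h, zero_smul]
      exact h0
    · rw [h, one_smul]
      exact hX
  have hE : ∀ π, E3 (dot D.em π) (dot D.aa π) (dot D.bb π) ∈ S := by
    intro π
    rw [Mst_eq]
    exact hadd _ (hM π) _ (hsm _ _ h1)
  have hE3 : ∀ {t a b t' a' b' : ZMod 2}, E3 t a b ∈ S → E3 t' a' b' ∈ S →
      E3 (t + t') (a + a') (b + b') ∈ S := by
    intro t a b t' a' b' g1 g2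
    rw [← E3_add]
    exact hadd _ g1 _ g2
  have hc : (1 : ZMod 2) + 1 = 0 := by decide
  obtain ⟨π1, hπ1⟩ := exists_dot ok.ha
  obtain ⟨π2, hπ2⟩ := exists_dot ok.hb
  have hab : D.aa + D.bb + D.em ≠ 0 := by
    intro h
    apply ok.hab
    have h2 : D.em + D.em = 0 := funext fun _ => CharTwo.add_self_eq_zero _
    have h3 : D.aa + D.bb + D.em + D.em = D.em := by rw [h, zero_add]
    rw [add_assoc, h2, add_zero] at h3
    exact h3
  obtain ⟨π3, hπ3⟩ := exists_dot hab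
  rw [dot_add, dot_add] at hπ3
  have he : ∃ π, dot D.aa π ≠ dot D.em π ∨ dot D.bb π ≠ dot D.em π := by
    by_contra hcon
    push Not at hcon
    apply ok.he
    have key : ∀ x : Gr r, (∀ π, dot x π = dot D.em π) → x = D.em := by
      intro x hx
      by_contra hne
      have hne' : x + D.em ≠ 0 := by
        intro h
        apply hne
        have h2 : D.em + D.em = 0 := funext fun _ => CharTwo.add_self_eq_zero _
        have h3 : x + D.em + D.em = D.em := by rw [h, zero_add]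
        rw [add_assoc, h2, add_zero] at h3
        exact h3
      obtain ⟨π, hπ⟩ := exists_dot hne'
      rw [dot_add, hx π, CharTwo.add_self_eq_zero] at hπ
      exact absurd hπ (by decide)
    exact ⟨key _ fun π => (hcon π).1, key _ fun π => (hcon π).2⟩
  obtain ⟨π4, hπ4⟩ := he
  have g1 := hE π1
  have g2 := hE π2
  have g3 := hE π3
  have g4 := hE π4
  rw [hπ1] at g1
  rw [hπ2] at g2
  have h := comb8 (E3 0 0 1 ∈ S) (E3 0 1 0 ∈ S) (E3 0 1 1 ∈ S) (E3 1 0 0 ∈ S) (E3 1 0 1 ∈ S)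
    (E3 1 1 0 ∈ S) (E3 1 1 1 ∈ S)
    (by refine ⟨?_, ?_, ?_⟩ <;> intro k1 k2 <;> simpa [hc] using hE3 k1 k2)
    (by refine ⟨?_, ?_, ?_⟩ <;> intro k1 k2 <;> simpa [hc] using hE3 k1 k2)
    (by refine ⟨?_, ?_, ?_⟩ <;> intro k1 k2 <;> simpa [hc] using hE3 k1 k2)
    (by refine ⟨?_, ?_, ?_⟩ <;> intro k1 k2 <;> simpa [hc] using hE3 k1 k2)
    (by refine ⟨?_, ?_, ?_⟩ <;> intro k1 k2 <;> simpa [hc] using hE3 k1 k2)
    (by refine ⟨?_, ?_, ?_⟩ <;> intro k1 k2 <;> simpa [hc] using hE3 k1 k2)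
    (by refine ⟨?_, ?_, ?_⟩ <;> intro k1 k2 <;> simpa [hc] using hE3 k1 k2)
    (by
      rcases z2 (dot D.em π1) with k1 | k1 <;> rcases z2 (dot D.bb π1) with k2 | k2 <;>
        rw [k1, k2] at g1 <;> tauto)
    (by
      rcases z2 (dot D.em π2) with k1 | k1 <;> rcases z2 (dot D.aa π2) with k2 | k2 <;>
        rw [k1, k2] at g2 <;> tauto)
    (by
      rcases z2 (dot D.em π3) with k1 | k1 <;> rcases z2 (dot D.aa π3) with k2 | k2 <;>
        rcases z2 (dot D.bb π3) with k3 | k3 <;>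
        rw [k1, k2, k3] at g3 hπ3 <;> tauto)
    (by
      rcases z2 (dot D.em π4) with k1 | k1 <;> rcases z2 (dot D.aa π4) with k2 | k2 <;>
        rcases z2 (dot D.bb π4) with k3 | k3 <;>
        rw [k1, k2, k3] at g4 hπ4 <;> tauto)
  have hfin : E3 0 1 0 ∈ S ∧ E3 0 0 1 ∈ S := by
    rcases h with ⟨k1, k2⟩ | ⟨k1, k2⟩ | ⟨k1, k2⟩ | ⟨k1, k2⟩
    · exact ⟨k1, k2⟩
    · have k3 : E3 1 0 0 ∈ S := by
        have := hmul _ k1 _ k2
        have e : E3 0 0 1 * E3 1 1 0 = E3 1 0 0 := by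
          unfold E3
          ext i j
          fin_cases i <;> fin_cases j <;> simp
        rwa [e] at this
      exact ⟨by simpa [hc] using hE3 k2 k3, k1⟩
    · have k3 : E3 1 0 0 ∈ S := by
        have := hmul _ k2 _ k1
        have e : E3 1 0 1 * E3 0 1 0 = E3 1 0 0 := by
          unfold E3
          ext i j
          fin_cases i <;> fin_cases j <;> simp
        rwa [e] at this
      exact ⟨k1, by simpa [hc] using hE3 k2 k3⟩
    · have k3 : E3 0 0 1 ∈ S := by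
        have := hmul _ k1 _ k2
        have e : E3 1 0 0 * E3 0 1 1 = E3 0 0 1 := by
          unfold E3
          ext i j
          fin_cases i <;> fin_cases j <;> simp
        rwa [e] at this
      exact ⟨by simpa [hc] using hE3 k2 k3, k3⟩
  intro M
  have hM' : M = M 0 0 • (E3 0 1 0 * E3 0 0 1) + M 0 1 • E3 0 1 0 + M 1 0 • E3 0 0 1 +
      M 1 1 • (E3 0 0 1 * E3 0 1 0) := by
    unfold E3
    ext i j
    fin_cases i <;> fin_cases j <;> simp
  rw [hM']
  exact hadd _ (hadd _ (hadd _ (hsm _ _ (hmul _ hfin.1 _ hfin.2)) _ (hsm _ _ hfin.1)) _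
    (hsm _ _ hfin.2)) _ (hsm _ _ (hmul _ hfin.2 _ hfin.1))

end algebra

/-- if all the matrices of the labels preserve the group of the differences the set is stable -/
theorem stb_of {r : ℕ} {ι : Type} [Fintype ι] {Z : Finset (Dc ι)} (hZ : Lag Z) (D : Par r)
    (ok : Ok D) (h : ∀ π, ∀ θ ∈ Lam Z, act (Mst D π) θ ∈ Lam Z) : Stb Z := by
  have hg := gen D ok {M | ∀ θ ∈ Lam Z, act M θ ∈ Lam Z}
    (fun θ hθ => by rw [one_act]; exact hθ)
    (fun x hx y hy θ hθ => by rw [add_act]; exact (Lam Z).add_mem (hx θ hθ) (hy θ hθ))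
    (fun x hx y hy θ hθ => by rw [mul_act]; exact hx _ (hy θ hθ))
    (fun π => h π)
  intro M ζ hζ ζ' hζ'
  exact hg M _ (hZ.add_mem hζ hζ') ζ hζ

section exch

variable {r : ℕ} {R ι : Type} [Fintype R] [Fintype ι]

/-- the interaction of two decorations -/
def Phi (ζ ζ' : Dc ι) : ZMod 2 := ∑ x, om (ζ x).2 ((ζ x).1 + (ζ' x).1)

/-- the contribution of one vertex -/
def An (D : Par r) (s : ι → Fin 2 → Gr r) (π : Gr r) (ζ : Dc ι) : ZMod 2 :=
  ∑ x, (om (ζ x).2 (fun c => dot (s x c) π) + om (ζ x).2 (Dm D π (ζ x).1))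

theorem Dm_add (D : Par r) (π : Gr r) (u v : V) : Dm D π (u + v) = Dm D π u + Dm D π v := by
  unfold Dm
  funext c
  fin_cases c <;> simp <;> ring

theorem om_row (D : Par r) (lab : R → Gr r) (N : R → R → ZMod 2) (s : Fin 2 → Gr r)
    (v : R → V) (i : R) (w : V) : om w (row D lab N univ s v i) =
      om w (fun c => dot (s c) (lab i)) + om w (Dm D (lab i) (v i)) +
        ∑ j, N i j * om w (v i + v j) := by
  have e : ∑ j, N i j * om w (v i + v j) =
      w 0 * ∑ j, N i j * (v i 1 + v j 1) + w 1 * ∑ j, N i j * (v i 0 + v j 0) := by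
    rw [mul_sum, mul_sum, ← sum_add_distrib]
    refine sum_congr rfl fun j _ => ?_
    unfold om
    simp only [Pi.add_apply]
    ring
  rw [e]
  unfold om row
  ring

theorem Ex_eq (D : Par r) (lab : R → Gr r) (N : R → R → ZMod 2) (s : ι → Fin 2 → Gr r)
    (ζ : R → Dc ι) : Ex D lab N (fun _ => univ) s ζ =
      ∑ i, An D s (lab i) (ζ i) + ∑ i, ∑ j, N i j * Phi (ζ i) (ζ j) := by
  unfold Ex
  rw [sum_comm, ← sum_add_distrib]
  refine sum_congr rfl fun i _ => ?_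
  unfold An Phi
  simp only [mul_sum]
  rw [sum_comm (s := univ (α := R)), ← sum_add_distrib]
  refine sum_congr rfl fun x _ => ?_
  exact om_row D lab N (s x) (fun j => (ζ j x).1) i (ζ i x).2

/-- the form that describes the exchange -/
theorem bf_act (D : Par r) (π : Gr r) (η θ : Dc ι) : bf η (act (Mst D π) θ) =
    ∑ x, (om (θ x).2 (Dm D π (η x).1) + om (η x).2 (Dm D π (θ x).1)) +
      dot D.em π * ∑ x, om (η x).2 (θ x).1 := by
  unfold bf
  rw [mul_sum, ← sum_add_distrib]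
  refine sum_congr rfl fun x _ => ?_
  simp only [act, Mst, om, Dm, Matrix.mulVec, dotProduct, Fin.sum_univ_two, Matrix.of_apply,
    Matrix.cons_val_zero, Matrix.cons_val_one, Matrix.cons_val', dot_add, Matrix.cons_val_fin_one]
  linear_combination (-((η x).2 1 * (θ x).1 0 * dot D.em π)) * two_eq

theorem An_add (D : Par r) (s : ι → Fin 2 → Gr r) (π : Gr r) (ζ ζ' η : Dc ι) :
    An D s π (ζ + η) + An D s π (ζ' + η) = An D s π ζ + An D s π ζ' +
      ∑ x, (om ((ζ + ζ') x).2 (Dm D π (η x).1) + om (η x).2 (Dm D π ((ζ + ζ') x).1)) := by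
  unfold An
  rw [← sum_add_distrib, ← sum_add_distrib, ← sum_add_distrib]
  refine sum_congr rfl fun x _ => ?_
  simp only [Pi.add_apply, Prod.fst_add, Prod.snd_add, om_add_left, om_add_right, Dm_add]
  linear_combination (om (η x).2 (fun c => dot (s x c) π) + om (η x).2 (Dm D π (η x).1)) * two_eq

theorem Phi_symm (a b : Dc ι) (h : qf (a + b) = 0) : Phi a b = Phi b a := by
  have h1 : Phi a b + Phi b a = qf (a + b) := by
    unfold Phi qf
    rw [← sum_add_distrib]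
    refine sum_congr rfl fun x _ => ?_
    simp only [Pi.add_apply, Prod.fst_add, Prod.snd_add, om_add_left, om_add_right]
    ring
  rw [h] at h1
  exact CharTwo.add_eq_zero.1 h1

theorem Phi_self (a : Dc ι) : Phi a a = 0 := by
  unfold Phi
  refine sum_eq_zero fun x _ => ?_
  have h : (a x).1 + (a x).1 = 0 := funext fun _ => CharTwo.add_self_eq_zero _
  rw [h]
  simp [om]

theorem Phi_add_right (a b η : Dc ι) : Phi a (b + η) = Phi a b + ∑ x, om (a x).2 (η x).1 := by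
  unfold Phi
  rw [← sum_add_distrib]
  refine sum_congr rfl fun x _ => ?_
  simp only [Pi.add_apply, Prod.fst_add, om_add_right]
  ring

theorem Phi_add_both (a b η : Dc ι) :
    Phi (a + η) (b + η) = Phi a b + ∑ x, om (η x).2 ((a + b) x).1 := by
  unfold Phi
  rw [← sum_add_distrib]
  refine sum_congr rfl fun x _ => ?_
  simp only [Pi.add_apply, Prod.fst_add, Prod.snd_add, om_add_left, om_add_right]
  linear_combination (om (a x).2 (η x).1 + om (η x).2 (η x).1) * two_eq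

theorem split3 {M : Type*} [AddCommMonoid M] {i0 j0 : R} (h : i0 ≠ j0) (f : R → M) :
    ∑ k, f k = f i0 + (f j0 + ∑ k ∈ (univ.erase i0).erase j0, f k) := by
  rw [← add_sum_erase univ f (mem_univ i0),
    ← add_sum_erase (univ.erase i0) f (mem_erase.2 ⟨h.symm, mem_univ _⟩)]

/-- the decoration changed at two vertices -/
noncomputable def sh (ζ : R → Dc ι) (i j : R) (η : Dc ι) : R → Dc ι :=
  fun k => if k = i ∨ k = j then ζ k + η else ζ k

theorem sh_left (ζ : R → Dc ι) (i j : R) (η : Dc ι) : sh ζ i j η i = ζ i + η :=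
  if_pos (Or.inl rfl)

theorem sh_right (ζ : R → Dc ι) (i j : R) (η : Dc ι) : sh ζ i j η j = ζ j + η :=
  if_pos (Or.inr rfl)

theorem sh_of_ne (ζ : R → Dc ι) {i j k : R} (η : Dc ι) (h : k ≠ i) (h' : k ≠ j) :
    sh ζ i j η k = ζ k :=
  if_neg (not_or.2 ⟨h, h'⟩)

theorem sh_sh (ζ : R → Dc ι) (i j : R) (η : Dc ι) : sh (sh ζ i j η) i j η = ζ := by
  funext k
  unfold sh
  by_cases h : k = i ∨ k = j
  · rw [if_pos h, if_pos h, dc_cancel']
  · rw [if_neg h, if_neg h]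

theorem sum_sh {Z : Finset (Dc ι)} (hZ : Lag Z) {N : R → R → ZMod 2} {t : R → ZMod 2}
    (hrec : ∀ i j, i ≠ j → N i j + N j i = t i * t j) {i0 j0 : R} (hij : i0 ≠ j0)
    (ht : t i0 = t j0) (ζ : R → Dc ι) (hζ : ∀ k, ζ k ∈ Z) {η : Dc ι} (hη : η ∈ Lam Z) :
    ∑ i, ∑ j, N i j * Phi (sh ζ i0 j0 η i) (sh ζ i0 j0 η j) =
      ∑ i, ∑ j, N i j * Phi (ζ i) (ζ j) + t i0 * ∑ x, om (η x).2 ((ζ i0 + ζ j0) x).1 := by
  set S := (univ.erase i0).erase j0 with hS
  have hSne : ∀ k ∈ S, k ≠ i0 ∧ k ≠ j0 := by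
    intro k hk
    rw [hS, mem_erase, mem_erase] at hk
    exact ⟨hk.2.1, hk.1⟩
  have key : ∀ ξ : R → Dc ι, (∀ k, ξ k ∈ Z) → ∑ i, ∑ j, N i j * Phi (ξ i) (ξ j) =
      t i0 * t j0 * Phi (ξ i0) (ξ j0) +
      ∑ k ∈ S, (t k * t i0 * Phi (ξ k) (ξ i0) + t k * t j0 * Phi (ξ k) (ξ j0)) +
      ∑ k ∈ S, ∑ l ∈ S, N k l * Phi (ξ k) (ξ l) := by
    intro ξ hξ
    have hsy : ∀ k l, Phi (ξ k) (ξ l) = Phi (ξ l) (ξ k) := fun k l =>
      Phi_symm _ _ (hZ.iso _ (hξ k) _ (hξ l))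
    rw [split3 hij]
    simp only [split3 hij (fun j => N _ j * Phi (ξ _) (ξ j)), Phi_self, mul_zero, zero_add,
      sum_add_distrib]
    rw [← hS]
    have e1 : ∑ k ∈ S, N i0 k * Phi (ξ i0) (ξ k) + ∑ k ∈ S, N k i0 * Phi (ξ k) (ξ i0) =
        ∑ k ∈ S, t k * t i0 * Phi (ξ k) (ξ i0) := by
      rw [← sum_add_distrib]
      refine sum_congr rfl fun k hk => ?_
      rw [hsy i0 k, ← add_mul, ← hrec k i0 (hSne k hk).1, add_comm (N i0 k)]
    have e2 : ∑ k ∈ S, N j0 k * Phi (ξ j0) (ξ k) + ∑ k ∈ S, N k j0 * Phi (ξ k) (ξ j0) =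
        ∑ k ∈ S, t k * t j0 * Phi (ξ k) (ξ j0) := by
      rw [← sum_add_distrib]
      refine sum_congr rfl fun k hk => ?_
      rw [hsy j0 k, ← add_mul, ← hrec k j0 (hSne k hk).2, add_comm (N j0 k)]
    have e3 : N i0 j0 * Phi (ξ i0) (ξ j0) + N j0 i0 * Phi (ξ j0) (ξ i0) =
        t i0 * t j0 * Phi (ξ i0) (ξ j0) := by
      rw [hsy j0 i0, ← add_mul, hrec i0 j0 hij]
    rw [← e1, ← e2, ← e3]
    ring
  have hζ' : ∀ k, sh ζ i0 j0 η k ∈ Z := by
    intro k
    unfold sh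
    split_ifs
    · exact hη _ (hζ k)
    · exact hζ k
  rw [key _ hζ', key _ hζ, sh_left, sh_right, Phi_add_both]
  have e1 : ∑ k ∈ S, (t k * t i0 * Phi (sh ζ i0 j0 η k) (ζ i0 + η) +
      t k * t j0 * Phi (sh ζ i0 j0 η k) (ζ j0 + η)) =
      ∑ k ∈ S, (t k * t i0 * Phi (ζ k) (ζ i0) + t k * t j0 * Phi (ζ k) (ζ j0)) := by
    refine sum_congr rfl fun k hk => ?_
    rw [sh_of_ne ζ η (hSne k hk).1 (hSne k hk).2, Phi_add_right, Phi_add_right, ht]
    linear_combination (t k * t j0 * ∑ x, om (ζ k x).2 (η x).1) * two_eq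
  have e2 : ∑ k ∈ S, ∑ l ∈ S, N k l * Phi (sh ζ i0 j0 η k) (sh ζ i0 j0 η l) =
      ∑ k ∈ S, ∑ l ∈ S, N k l * Phi (ζ k) (ζ l) := by
    refine sum_congr rfl fun k hk => sum_congr rfl fun l hl => ?_
    rw [sh_of_ne ζ η (hSne k hk).1 (hSne k hk).2, sh_of_ne ζ η (hSne l hl).1 (hSne l hl).2]
  rw [e1, e2]
  have e3 : t i0 * t j0 = t i0 := by
    rw [← ht]
    rcases z2 (t i0) with h | h <;> rw [h] <;> decide
  rw [mul_add, e3]
  ring

theorem Ex_sh {Z : Finset (Dc ι)} (hZ : Lag Z) (D : Par r) {lab : R → Gr r}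
    {N : R → R → ZMod 2}
    (hrec : ∀ i j, i ≠ j → N i j + N j i = dot D.em (lab i) * dot D.em (lab j)) {i0 j0 : R}
    (hij : i0 ≠ j0) (hl : lab i0 = lab j0) (s : ι → Fin 2 → Gr r) (ζ : R → Dc ι)
    (hζ : ∀ k, ζ k ∈ Z) {η : Dc ι} (hη : η ∈ Lam Z) :
    Ex D lab N (fun _ => univ) s (sh ζ i0 j0 η) =
      Ex D lab N (fun _ => univ) s ζ + bf η (act (Mst D (lab i0)) (ζ i0 + ζ j0)) := by
  rw [Ex_eq, Ex_eq, sum_sh hZ (t := fun i => dot D.em (lab i)) hrec hij (by rw [hl]) ζ hζ hη,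
    bf_act]
  have e1 : ∑ i, An D s (lab i) (sh ζ i0 j0 η i) = ∑ i, An D s (lab i) (ζ i) +
      ∑ x, (om ((ζ i0 + ζ j0) x).2 (Dm D (lab i0) (η x).1) +
        om (η x).2 (Dm D (lab i0) ((ζ i0 + ζ j0) x).1)) := by
    rw [split3 hij, split3 hij, sh_left, sh_right, ← hl]
    have e2 := An_add D s (lab i0) (ζ i0) (ζ j0) η
    have e3 : ∑ k ∈ (univ.erase i0).erase j0, An D s (lab k) (sh ζ i0 j0 η k) =
        ∑ k ∈ (univ.erase i0).erase j0, An D s (lab k) (ζ k) := by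
      refine sum_congr rfl fun k hk => ?_
      rw [mem_erase, mem_erase] at hk
      rw [sh_of_ne ζ η hk.2.1 hk.1]
    rw [e3, ← add_assoc, e2]
    ring
  rw [e1]
  ring

theorem XW_sh (D : Par r) {lab : R → Gr r} {i0 j0 : R} (hij : i0 ≠ j0) (hl : lab i0 = lab j0)
    (s : ι → Fin 2 → Gr r) (ζ : R → Dc ι) (η : Dc ι) :
    XW D lab (fun _ => univ) s (sh ζ i0 j0 η) ↔ XW D lab (fun _ => univ) s ζ := by
  unfold XW
  have h : ∀ x, Xl lab univ (s x) (fun i => (sh ζ i0 j0 η i x).1) =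
      Xl lab univ (s x) (fun i => (ζ i x).1) := by
    intro x
    unfold Xl
    refine Prod.ext rfl ?_
    funext c
    show ∑ i, (sh ζ i0 j0 η i x).1 c • lab i = ∑ i, (ζ i x).1 c • lab i
    rw [split3 hij, split3 hij, sh_left, sh_right, ← hl]
    have e3 : ∑ k ∈ (univ.erase i0).erase j0, (sh ζ i0 j0 η k x).1 c • lab k =
        ∑ k ∈ (univ.erase i0).erase j0, (ζ k x).1 c • lab k := by
      refine sum_congr rfl fun k hk => ?_
      rw [mem_erase, mem_erase] at hk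
      rw [sh_of_ne ζ η hk.2.1 hk.1]
    rw [e3, ← add_assoc, ← add_assoc, ← add_smul, ← add_smul]
    congr 2
    simp only [Pi.add_apply, Prod.fst_add]
    linear_combination (η x).1 c * two_eq
  simp only [h]

end exch

theorem sn_add_one (a : ZMod 2) : sn (a + 1) = -sn a := by
  unfold sn
  rcases z2 a with h | h
  · rw [h, zero_add, if_neg (by decide), if_pos rfl]
  · have h1 : (1 : ZMod 2) + 1 = 0 := by decide
    rw [h, h1, if_pos rfl, if_neg (by decide)]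
    norm_num

theorem abs_sn (a : ZMod 2) : |sn a| = 1 := by
  unfold sn
  split_ifs <;> simp

section count

variable {r : ℕ} {R ι : Type} [Fintype R] [Fintype ι]

/-- the value of the form at the pair `p` -/
def gg (M : Matrix (Fin 2) (Fin 2) (ZMod 2)) (η : Dc ι) {L : ℕ} (i j : Fin L → R)
    (ζ : R → Dc ι) (p : Fin L) : ZMod 2 := bf η (act M (ζ (i p) + ζ (j p)))

/-- choice of an index -/
noncomputable def pk {L : ℕ} (P : Fin L → Prop) (h : ∃ p, P p) : Fin L := Classical.choose h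

theorem pk_congr {L : ℕ} {P P' : Fin L → Prop} (e : P = P') (h : ∃ p, P p) (h' : ∃ p, P' p) :
    pk P h = pk P' h' := by
  subst e
  rfl

theorem pk_spec {L : ℕ} (P : Fin L → Prop) (h : ∃ p, P p) : P (pk P h) :=
  Classical.choose_spec h

theorem gg_sh (M : Matrix (Fin 2) (Fin 2) (ZMod 2)) (η : Dc ι) {L : ℕ} {i j : Fin L → R}
    (hi : Function.Injective i) (hj : Function.Injective j) (hij : ∀ p q, i p ≠ j q)
    (ζ : R → Dc ι) (p q : Fin L) : gg M η i j (sh ζ (i p) (j p) η) q = gg M η i j ζ q := by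
  unfold gg
  by_cases h : q = p
  · subst h
    rw [sh_left, sh_right]
    congr 2
    have e : ζ (i q) + η + (ζ (j q) + η) = ζ (i q) + ζ (j q) + η + η := by abel
    rw [e, dc_cancel']
  · rw [sh_of_ne ζ η (fun h' => h (hi h')) (hij q p),
      sh_of_ne ζ η (fun h' => hij p q h'.symm) (fun h' => h (hj h'))]

theorem cancel {Z : Finset (Dc ι)} (hZ : Lag Z) (D : Par r) {lab : R → Gr r}
    {N : R → R → ZMod 2}
    (hrec : ∀ i j, i ≠ j → N i j + N j i = dot D.em (lab i) * dot D.em (lab j)) {L : ℕ}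
    {i j : Fin L → R} (hi : Function.Injective i) (hj : Function.Injective j)
    (hij : ∀ p q, i p ≠ j q) {π : Gr r} (hli : ∀ p, lab (i p) = π) (hlj : ∀ p, lab (j p) = π)
    {η : Dc ι} (hη : η ∈ Lam Z) (s : ι → Fin 2 → Gr r) :
    ∑ ζ ∈ ((Fintype.piFinset fun _ : R => Z).filter (fun ζ : R → Dc ι =>
      XW D lab (fun _ => univ) s ζ)).filter (fun ζ => ∃ p, gg (Mst D π) η i j ζ p ≠ 0),
        sn (Ex D lab N (fun _ => univ) s ζ) = 0 := by
  have hmem : ∀ ζ ∈ ((Fintype.piFinset fun _ : R => Z).filter (fun ζ : R → Dc ι =>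
      XW D lab (fun _ => univ) s ζ)).filter (fun ζ => ∃ p, gg (Mst D π) η i j ζ p ≠ 0),
      (∀ k, ζ k ∈ Z) ∧ XW D lab (fun _ => univ) s ζ ∧ ∃ p, gg (Mst D π) η i j ζ p ≠ 0 := by
    intro ζ hζ
    rw [mem_filter, mem_filter, Fintype.mem_piFinset] at hζ
    exact ⟨hζ.1.1, hζ.1.2, hζ.2⟩
  have hgg : ∀ (ζ : R → Dc ι) (p : Fin L),
      (fun q => gg (Mst D π) η i j (sh ζ (i p) (j p) η) q ≠ 0) =
        fun q => gg (Mst D π) η i j ζ q ≠ 0 := by
    intro ζ p
    funext q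
    rw [gg_sh _ _ hi hj hij]
  refine sum_involution
    (fun ζ hζ => sh ζ (i (pk _ (hmem ζ hζ).2.2)) (j (pk _ (hmem ζ hζ).2.2)) η) ?_ ?_ ?_ ?_
  · intro ζ hζ
    obtain ⟨h1, h2, h3⟩ := hmem ζ hζ
    have h4 := pk_spec _ h3
    set p := pk _ h3 with hp
    have h5 := Ex_sh hZ D hrec (hij p p) ((hli p).trans (hlj p).symm) s ζ h1 hη
    have h6 : bf η (act (Mst D (lab (i p))) (ζ (i p) + ζ (j p))) = 1 := by
      rw [hli p]
      exact (z2 _).resolve_left h4
    rw [h6] at h5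
    show sn (Ex D lab N (fun _ => univ) s ζ) +
      sn (Ex D lab N (fun _ => univ) s (sh ζ (i p) (j p) η)) = 0
    rw [h5, sn_add_one]
    ring
  · intro ζ hζ _ heq
    obtain ⟨h1, h2, h3⟩ := hmem ζ hζ
    have h4 := pk_spec _ h3
    set p := pk _ h3 with hp
    have heq' : sh ζ (i p) (j p) η = ζ := heq
    have h5 := congrFun heq' (i p)
    rw [sh_left] at h5
    have h6 : η = 0 := by
      have := dc_cancel (ζ (i p)) η
      rw [h5, dc_add_self] at this
      exact this.symm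
    apply h4
    show gg (Mst D π) η i j ζ p = 0
    unfold gg
    rw [h6, bf_comm, bf_zero_right]
  · intro ζ hζ
    obtain ⟨h1, h2, h3⟩ := hmem ζ hζ
    set p := pk _ h3 with hp
    show sh ζ (i p) (j p) η ∈ _
    rw [mem_filter, mem_filter, Fintype.mem_piFinset]
    refine ⟨⟨?_, ?_⟩, ?_⟩
    · intro k
      unfold sh
      split_ifs
      · exact hη _ (h1 k)
      · exact h1 k
    · exact (XW_sh D (hij p p) ((hli p).trans (hlj p).symm) s ζ η).2 h2
    · obtain ⟨q, hq⟩ := h3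
      exact ⟨q, by rw [gg_sh _ _ hi hj hij]; exact hq⟩
  · intro ζ hζ
    obtain ⟨h1, h2, h3⟩ := hmem ζ hζ
    have h' : ∃ q, gg (Mst D π) η i j (sh ζ (i (pk _ h3)) (j (pk _ h3)) η) q ≠ 0 := by
      obtain ⟨q, hq⟩ := h3
      exact ⟨q, by rw [gg_sh _ _ hi hj hij]; exact hq⟩
    have e := pk_congr (hgg ζ (pk _ h3)) h' h3
    have e' : sh (sh ζ (i (pk _ h3)) (j (pk _ h3)) η) (i (pk _ h')) (j (pk _ h')) η = ζ := by
      rw [e, sh_sh]
    exact e'

theorem count {Z : Finset (Dc ι)} (hZ : Lag Z) (M : Matrix (Fin 2) (Fin 2) (ZMod 2)) {L : ℕ}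
    {i j : Fin L → R} (hi : Function.Injective i) (hj : Function.Injective j)
    (hij : ∀ p q, i p ≠ j q) {η θ : Dc ι} (hη : η ∈ Lam Z) (hθ : θ ∈ Lam Z)
    (h : bf η (act M θ) ≠ 0) :
    2 ^ L * ((Fintype.piFinset fun _ : R => Z).filter
      (fun ζ => ∀ p, gg M η i j ζ p = 0)).card ≤ (Fintype.piFinset fun _ : R => Z).card := by
  set G := (Fintype.piFinset fun _ : R => Z).filter (fun ζ => ∀ p, gg M η i j ζ p = 0) with hG
  have hc : ((univ : Finset (Finset (Fin L))) ×ˢ G).card = 2 ^ L * G.card := by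
    rw [card_product, card_univ, Fintype.card_finset, Fintype.card_fin]
  rw [← hc]
  set F : Finset (Fin L) × (R → Dc ι) → R → Dc ι :=
    fun x k => if ∃ p ∈ x.1, j p = k then x.2 k + θ else x.2 k with hF
  have hFi : ∀ x p, F x (i p) = x.2 (i p) := by
    intro x p
    simp only [hF]
    rw [if_neg]
    rintro ⟨q, -, hq⟩
    exact hij p q hq.symm
  have hFj : ∀ x p, F x (j p) = if p ∈ x.1 then x.2 (j p) + θ else x.2 (j p) := by
    intro x p
    simp only [hF]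
    by_cases hp : p ∈ x.1
    · rw [if_pos ⟨p, hp, rfl⟩, if_pos hp]
    · rw [if_neg hp, if_neg]
      rintro ⟨q, hq, hqp⟩
      exact hp (hj hqp ▸ hq)
  have hFg : ∀ x : Finset (Fin L) × (R → Dc ι), (∀ p, gg M η i j x.2 p = 0) →
      ∀ p, p ∈ x.1 ↔ gg M η i j (F x) p ≠ 0 := by
    intro x hx p
    unfold gg
    rw [hFi, hFj]
    by_cases hp : p ∈ x.1
    · rw [if_pos hp, ← add_assoc, act_add, bf_add_right]
      have h1 : bf η (act M (x.2 (i p) + x.2 (j p))) = 0 := hx p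
      rw [h1, zero_add]
      exact ⟨fun _ => h, fun _ => hp⟩
    · rw [if_neg hp]
      have h1 : bf η (act M (x.2 (i p) + x.2 (j p))) = 0 := hx p
      rw [h1]
      exact ⟨fun h' => absurd h' hp, fun h' => absurd rfl h'⟩
  refine card_le_card_of_injOn F ?_ ?_
  · rintro x hx
    rw [mem_coe, mem_product, hG, mem_filter, Fintype.mem_piFinset] at hx
    rw [mem_coe, Fintype.mem_piFinset]
    intro k
    simp only [hF]
    split_ifs
    · exact hθ _ (hx.2.1 k)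
    · exact hx.2.1 k
  · rintro x hx y hy hxy
    rw [mem_coe, mem_product, hG, mem_filter, Fintype.mem_piFinset] at hx hy
    have h1 : x.1 = y.1 := by
      ext p
      rw [hFg x hx.2.2 p, hFg y hy.2.2 p, hxy]
    refine Prod.ext h1 ?_
    funext k
    have h2 := congrFun hxy k
    simp only [hF, h1] at h2
    split_ifs at h2
    · exact add_right_cancel h2
    · exact h2

end count

theorem exists_pairs {r : ℕ} {R : Type} [Fintype R] {lab : R → Gr r} {L : ℕ} {π : Gr r}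
    (h : 2 * L ≤ (univ.filter fun i => lab i = π).card) :
    ∃ i j : Fin L → R, Function.Injective i ∧ Function.Injective j ∧ (∀ p q, i p ≠ j q) ∧
      (∀ p, lab (i p) = π) ∧ ∀ p, lab (j p) = π := by
  obtain ⟨t, ht, hcard⟩ := exists_subset_card_eq h
  set e := (t.equivFinOfCardEq hcard).symm with he
  refine ⟨fun p => (e ⟨p.1, by omega⟩ : R), fun p => (e ⟨L + p.1, by omega⟩ : R), ?_, ?_, ?_,
    ?_, ?_⟩
  · intro p q hpq
    have := e.injective (Subtype.ext hpq)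
    rw [Fin.mk.injEq] at this
    exact Fin.ext this
  · intro p q hpq
    have := e.injective (Subtype.ext hpq)
    rw [Fin.mk.injEq] at this
    exact Fin.ext (by omega)
  · intro p q hpq
    have := e.injective (Subtype.ext hpq)
    rw [Fin.mk.injEq] at this
    omega
  · intro p
    exact (mem_filter.1 (ht (e ⟨p.1, by omega⟩).2)).2
  · intro p
    exact (mem_filter.1 (ht (e ⟨L + p.1, by omega⟩).2)).2

/-- **GK-PAIR.** -/
theorem t_PAIR : S_PAIR := by
  intro hU r D ok R ι _ _ lab N L hyp hL Z hMS hst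
  have hZ := lag_of_MS hU hMS
  -- a label whose matrix does not preserve the group of the differences
  have h1 : ∃ π, ∃ θ ∈ Lam Z, act (Mst D π) θ ∉ Lam Z := by
    by_contra hcon
    push Not at hcon
    exact hst (stb_of hZ D ok hcon)
  obtain ⟨π, θ, hθ, hnot⟩ := h1
  have h2 : ∃ η ∈ Lam Z, bf η (act (Mst D π) θ) ≠ 0 := by
    by_contra hcon
    push Not at hcon
    exact hnot (hZ.mem_of hcon)
  obtain ⟨η, hη, hne⟩ := h2
  obtain ⟨i, j, hi, hj, hij, hli, hlj⟩ := exists_pairs (hL π)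
  have hrec : ∀ i j, i ≠ j → N i j + N j i = dot D.em (lab i) * dot D.em (lab j) :=
    fun i j h => hyp.recip i (mem_univ i) j (mem_univ j) h
  set G := (Fintype.piFinset fun _ : R => Z).filter
    (fun ζ => ∀ p, gg (Mst D π) η i j ζ p = 0) with hG
  have hs : ∀ s : ι → Fin 2 → Gr r,
      |∑ ζ ∈ (Fintype.piFinset fun _ : R => Z).filter (fun ζ : R → Dc ι =>
        XW D lab (fun _ => univ) s ζ), sn (Ex D lab N (fun _ => univ) s ζ)| ≤ G.card := by
    intro s
    rw [← sum_filter_add_sum_filter_not _ (fun ζ => ∃ p, gg (Mst D π) η i j ζ p ≠ 0),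
      cancel hZ D hrec hi hj hij hli hlj hη s, zero_add]
    refine (abs_sum_le_sum_abs _ _).trans ?_
    simp only [abs_sn, sum_const, nsmul_eq_mul, mul_one]
    rw [Nat.cast_le]
    refine card_le_card ?_
    intro ζ hζ
    rw [mem_filter, mem_filter] at hζ
    rw [hG, mem_filter]
    refine ⟨hζ.1.1, fun p => ?_⟩
    by_contra hp
    exact hζ.2 ⟨p, hp⟩
  have hcount := count hZ (Mst D π) hi hj hij hη hθ hne
  rw [← hG, Fintype.card_piFinset, prod_const, card_univ, hMS.2.1] at hcount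
  have hcount' : (2 : ℝ) ^ L * G.card ≤ 4 ^ (Fintype.card ι * Fintype.card R) := by
    have h3 : 2 ^ L * G.card ≤ 4 ^ (Fintype.card ι * Fintype.card R) := by
      rw [pow_mul]
      simpa using hcount
    exact_mod_cast h3
  unfold Pool.Agent.N869.GK.One
  refine (abs_sum_le_sum_abs _ _).trans ?_
  refine (sum_le_sum fun s _ => hs s).trans ?_
  rw [sum_const, card_univ, nsmul_eq_mul]
  have hcs : ((Fintype.card (ι → Fin 2 → Gr r) : ℕ) : ℝ) = 4 ^ (r * Fintype.card ι) := by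
    simp only [Fintype.card_pi, ZMod.card, prod_const, card_univ, Fintype.card_fin]
    push_cast
    rw [← pow_mul, ← pow_mul]
    have : (4 : ℝ) = 2 ^ 2 := by norm_num
    rw [this, ← pow_mul]
    congr 1
    ring
  rw [hcs, mul_assoc]
  apply mul_le_mul_of_nonneg_left _ (by positivity)
  rw [one_div, inv_pow, inv_mul_eq_div, le_div_iff₀ (by positivity), mul_comm]
  exact hcount'

end Pool.Agent.N314.GK
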